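import Pool.Graph.R_pool_sql_team_seeded_620a6dc7.helper748_tw_.Main
import Pool.Graph.R_pool_sql_team_seeded_620a6dc7.helper748_mc_.FanThm
import Pool.Agent.H941.ST.Root

/-!
# The twisted topological zeta functions of forms whose continuous cubic sections are cubic forms

Let `f` be a form of degree `d` in three variables. We assume (`CubicChain`) that the curve `f = 0` is
the union of a curve `H = 0` of degree `e ≥ 3` and of curves `g_1 = 0, …, g_r = 0` such that

* `H = 0` has few bad points (`FewBad`): there are `K ≥ 0` linear forms `l_i` such that each line
  `l_i = 0` has at least `K + 4` different points on `H = 0`, and each singular point of `H = 0` is an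
  ordinary double point of this curve (`NodeAt`), or a non-resonant quasi-homogeneous point of `f`
  (`QHAt`: there is a vector field `θ` with `θ f = 0` and `θ(z) = c z`, which has integer weights on the
  tangent space, and `3 c` is no integer), or the product of the `l_i` is locally at this point in the
  ideal of the partial derivatives of `H` (`JacAt`). So arbitrary singular points are allowed, if the
  degree of `H` is large in comparison with the degrees of their Milnor algebras. Or, more
  generally, the continuous sections of `O(3)` on `H = 0`, which are regular at the non-resonant
  quasi-homogeneous points of `f`, are cubic forms (`Cubic`);
* let `D_j` be the union of `H = 0` and the curves `g_l = 0`, `l < j`. Then `g_j` is irreducible and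
  `g_j = 0` has more than `3 deg (g_j)` different points on `D_j`, or `g_j = 0` meets `D_j` only
  transversally or in non-resonant quasi-homogeneous points of `f`, and `D_j` has degree at least
  four or `g_j` is irreducible;
* `H = 0` has degree at least four and no other singular points than ordinary double points, or the
  linear vector fields which annihilate `f` have trace `0` (`TrZero`). (If there is such a field of
  trace `≠ 0`, then `f ^ (-3/d) dx₀ dx₁ dx₂` is exact.)

The multiplicities of all components in `f` are arbitrary, and so are the singularities of the
curves `g_j = 0` outside of `D_j` (in the first case, all of their singularities and intersections).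
So the curve `f = 0` may have singular points which are not quasi-homogeneous.

**The twisted topological zeta functions.** The twisted topological zeta function `Z^(e)` of a form `f`
of degree `d` in three variables is computed from the curve `f = 0` in the projective plane by blowing up
points, see `TwCone`, `TwPlane` and `TwLocal` (in `helper748_tw_.Defs`, starting library). It is zero if `e`
does not divide `d`. All poles except possibly `-3/d` are roots of `b_f`, by the twisted version of the
theorem for plane curves (`cone_tw`, starting library), so that the question is whether
`b_f(-3/d) = 0`. By the theorem of Malgrange and Kashiwara (not formalised), `exp(2 π i s₀)` is a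
monodromy eigenvalue of `f` for every root `s₀` of `b_f`.

The proof of `b(-3/d) = 0`; put `s = -3/d` and let `s < 0` be no root of `b`:

* `bert`: there is a line which meets the reduced curve `Q = 0` in `N = deg Q` points; let it be
  the line at infinity for the affine coordinates `t = x₀`, `x₁ = 1`, `x = x₂`, such that the given
  points have different coordinates `t`, and the branches at the double points are not vertical;
* `exact_two'`, `dat`: the functional equation gives (by `root_of_not_exact`, in the library)
  `f ^ s = ∂_t (P f ^ (s - K)) + ∂_x (R f ^ (s - K))` with polynomials; over the field `ℂ(t)` the
  order of the pole along `Q = 0` can be reduced to one;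
* `fin_pt2`, `lim_inf'`: let `a_1(t), …, a_N(t)` be the roots of `Q(t, 1, x)`. The residues `y_j(t)` of
  the primitive at these roots satisfy a linear differential system. As all exponents are
  negative, an energy identity shows that they are bounded at all finite points, that they have
  the SAME limit on all branches through a point, and that `y_j = O(t ^ 3)` at infinity;
* `poly`: so the primitive `f ^ s = ∂_t (p f ^ s / Q) + ∂_x (ρ f ^ s / Q)` has polynomials `p, ρ`. By
  `tends` the residue `y` is a continuous section of `O(3)` on the curve;
* `loc`, `reg_form`: at a non-resonant quasi-homogeneous point, the vector field acts on the
  truncated local ring with eigenvalues that are combinations of the weights; the shifted operator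
  is invertible, so that the residue is the restriction of a regular function;
* `bdd_poly_t`, `start_local`: for the bad points, the product of the function `y` with the linear
  forms `l_i` is regular on `H = 0`, since it is in the ideal of the partial derivatives; so it is the
  restriction of a polynomial `B` of degree at most `K + 3` (by the growth at infinity);
* `strip`: at the points where a line `l_i = 0` meets `H = 0`, the polynomial `B` is `0`; there are at
  least `K + 4` such points on the line, so `l_i` divides `B` modulo `H`. By induction, `y` is the
  restriction of a polynomial `Z` of degree at most three;
* `step`: the function `y - Z` on `g_j = 0` vanishes at the more than `3 deg (g_j)` points where the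
  curve meets the previous ones, and is bounded by `t ^ 3`: the product of its values at the roots
  is an entire function of `t` with more zeros than its growth allows; `step2`, `step3`: the
  function `(y - Z) / D_j` on `g_j = 0` has no poles, and it is zero or a constant by its growth at
  infinity. By induction, `y = Z` on `Q = 0`;
* `endgame`: after subtracting `∂_t (∂_x (Z f ^ s)) - ∂_x (∂_t (Z f ^ s))`, the primitive is a vector field
  without poles which is tangent to `Q = 0`, of the total degree at most two. It vanishes if `H = 0`
  has ordinary double points and degree at least four (`fin_nod`), and otherwise it comes from a
  linear vector field of trace `≠ 0` which annihilates `f` (`fin_lin`); this is a contradiction.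
-/

set_option autoImplicit false

namespace Pool.Agent.Results.MP_b22d1f_ag.CubicChain

open MvPolynomial Pool.Agent.H628R4.TP Pool.Agent.Helper748.MC Pool.Agent.Helper748.TZ
  Pool.Agent.H941.QK

/-- **The poles of all twisted topological zeta functions are roots of the Bernstein-Sato polynomial
for the forms `f` of degree `d` in
three variables of the class `CubicChain`: the curve `f = 0` consists of a curve with few bad points
(apart from double points and non-resonant quasi-homogeneous points of `f`), or whose continuous
sections of `O(3)` are cubic forms, and of components which have many points on the previous ones
or meet them transversally or in quasi-homogeneous points**.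
Here `b` is any polynomial which satisfies a global or local functional equation
`b(s) f ^ s = P(s) f ^ (s + 1)`, in particular the Bernstein-Sato polynomial of `f`, or the local one at
the origin, and `Z` is the twisted topological zeta function `Z^(e)` of `f`, for any `e`. Then `-3/d` is a
root of `b`, and every pole `s₀` of `Z` is a root of `b`. -/
theorem result (f : MvPolynomial (Fin 3) ℂ) (d : ℕ) (hf : f.IsHomogeneous d)
    (hc : CubicChain f) (b : Polynomial ℂ)
    (hb : IsBFunction f b ∨ IsLocalBFunction f b) :
    b.eval (-3 / d : ℂ) = 0 ∧ ∀ (e : ℕ) (Z : RatFunc ℂ), TwCone e f d Z →
      ∀ s₀ : ℂ, Z.denom.eval s₀ = 0 → b.eval s₀ = 0 := by
  have hr := Pool.Agent.H941.ST.cubic_root hf hc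
  have hb' := global_of f hr.2.1 d hf b hb
  have h3 := hr.2.2 b hb'
  exact ⟨h3, fun e Z hZ s₀ hs₀ => cone_tw e f d hr.1 hf b (funEq_unit f b hb') h3 Z hZ s₀ hs₀⟩

end Pool.Agent.Results.MP_b22d1f_ag.CubicChain
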