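import Pool.Agent.H940.Q.Rows

/-!
# The twisted monodromy conjecture for forms with locally weighted homogeneous isolated singularities

We prove Q1 for all `e ≥ 1`, in the strong form (roots of the Bernstein-Sato polynomial), for the forms of
degree `d ≥ 3` in the following class.

`LH` is the class of the forms `f` in `x_0, …, x_n` such that the hypersurface `{f = 0}` in the projective
space has only isolated singularities, and each of them is weighted homogeneous: after a formal change
of coordinates and up to a unit the germ is a weighted homogeneous polynomial with an isolated critical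
point (all weights positive). There is no hypothesis on `-(n + 1)/d`, and there are forms in the class for
which it is not a root of the Bernstein-Sato polynomial (for example `x ^ (d - 1) y + z ^ d`, `d ≥ 4`).
Examples: all reduced plane curves with singularities of type `A`, `D`, `E`, `x ^ a = y ^ b`, and so on (`n =
2`), for instance all reduced arrangements of lines, and of lines and conics with quasi-homogeneous
singularities; all surfaces in the projective three-space with rational double points, and so on in all
dimensions; all smooth hypersurfaces.
The functions `Z^(e)` with `e > 1` are not zero in general, for instance if `e ∣ d`.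

**The twisted zeta functions** `Z^(e)` are taken from the spaces of jets, as Denef and Loeser do: for a
character `α` of order `e` of the group of the roots of unity they form the series of the `α`-parts of the
classes of the covers `U_(m,k) = {(φ, w) | f(φ) = w ^ k t ^ m mod t ^ (m + 1), w ≠ 0}`, `e ∣ k`, of the sets of the
`m`-jets on which `f` has the order `m`; its Euler characteristic at `T = 𝕃 ^ (-s)` is `Z^(e)(s)`. The class
of `U_(m,k)` is the sum of its parts over all characters with `α ^ k = 1`, so the topological zeta function
`Y_k` of the series `∑_(m ≥ 1) [U_(m,k)] 𝕃 ^ (-(n + 1) m) T ^ m` (`zetaC`) is `∑_(e ∣ k) φ(e) Z^(e)`, and `Z^(e)` is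
defined by `φ(e) Z^(e) = ∑_(i k = e) μ(i) Y_k` (`IsTwistedTop`).

**Method.** (1) The Jacobian ideal of a form `f` in `LH` is of linear type (`lty`), so the annihilator of `f ^ s`
is generated by operators of order one, up to what is needed for the following: if `b(s) f ^ s = P(s) f ^ (s
+ 1)` near the origin, then `b(-(n + 1)/d) = 0`, or there is a vector field which kills `f` and has a non-zero
divergence at the origin (`root_or_field`). (2) In the second case the semisimple part of the linear part of
the field gives a second one-parameter group of linear maps, with weights `w_i`, `∑ w_i ≠ 0`, which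
fixes `f`; for `d ≥ 3` and the right sign of the weights all points of the eigenspace of the largest weight
`w_(i₀)` are critical, so this eigenspace is a singular line, the germ of `f` at it is weighted homogeneous in
LINEAR coordinates for the positive weights `a_j = w_(i₀) - w_j` and the degree `e = d w_(i₀)`, and
`-(∑ a_j)/e` is the root which belongs to this singular point (`sf_or_pair`).
(3) **Angular components.** The series of this problem count the arcs `γ` with `f(γ) = c t ^ N mod t ^ (N + 1)`,
`c = 1`. Such conditions are not stable under the operations of the induction: in formal coordinates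
`f = U g(η)` the leading coefficient is multiplied by `U(0)`, near a singular line by `x_i(0) ^ d`, where
`x_i` is the coordinate along the line. We therefore consider, for all finite sets `τ` of parameters (more
variables on which `f` does not depend) and ALL constructible relations `Q(γ, c)` between finitely many
coefficients of an arc `γ` of the space with the parameters, and the number `c`, the series
`SQ Q = ∑_N vol {γ : ord f(γ) ≥ N, Q(γ, c_N(f(γ)))} T ^ N`, `c_N` the coefficient of `t ^ N`. They are closed under
formal coordinates (`sq_formal`, by Newton's method for arcs, with polynomial approximations of the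
coordinates and of their inverse), under charts near a line (`sq_line`, where the coordinate along the line
becomes a parameter), and under the one-parameter groups (`SQ_tl`). If the order of the gradient is
bounded on `Q`, the angular component is free for large `N`, and `vol` is multiplied by `𝕃 ⁻¹` when `N`
grows by one (`SQ_bdd`, by solving the linear part of the equation `c_N(f(γ)) = c`). For weighted
homogeneous germs and for the form itself, the recursion lowers the order of the coefficients on which
`Q` depends, until `Q` depends on the parameters only (`whi_sq`, `all_of_free`), and then there is an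
equation for `SQ Q` with the only denominator `1 - 𝕃 ^ (-ν) T ^ N` of the pair found in (2)
(`free_scalar`, `free_second`). So there is ONE finite set of pairs, which give roots, for all `Q` (`form_all`).
(4) The relation `c = w ^ k`, `w ≠ 0`, `w` a parameter, gives the series of the covers (`zetaC_eq`), for all `k`
with the same pairs.
-/

set_option autoImplicit false

namespace Pool.Agent.Results.MP_b22d1f_ag.FormsLocallyWHTwisted

open MvPolynomial Pool.Agent.H940.G
open Pool.Agent.W428.MOT (MK Lu ratRing)
open Pool.Agent.TH192.MU (IsTwistedTop zetaC)
open Pool.Agent.H628R4.TP (IsBFunction)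

/-- **The twisted monodromy conjecture for forms with only weighted homogeneous isolated projective
singularities.** `f ≠ 0` is a form of degree `d ≥ 3` in `n + 1` variables, and for every singular point of
the projective hypersurface, with the coordinates `x_i = 1` and `q` (all partial derivatives of `f` vanish
there), the germ `germAt i q f` of the dehomogenized form is weighted homogeneous with an isolated critical
point in suitable formal coordinates and up to a unit (`WHG`). Then there is a finite set `S` of pairs
`(a, b)` with `a < 0 < b` such that

* `a / b` is a root of every `b'` with `b'(s) f ^ s = P(s) f ^ (s + 1)`, `P(s)` in the Weyl algebra and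
  polynomial in `s` (for instance `b' = b_f`), so `exp(2πi a / b)` is an eigenvalue of the monodromy of `f`
  at some point, by the theorem of Malgrange and Kashiwara;
* for all `k` the series `∑_(m ≥ 1) [U_(m,k)] 𝕃 ^ (-(n + 1) m) T ^ m` (`zetaC f k`) of the `k`-fold covers is in the
  subring of `𝓜⟦T⟧` generated over `𝓜` by `T` and the `1 / (1 - 𝕃 ^ a T ^ b)`, `(a, b) ∈ S`;
* for all `e ≥ 1`, if `Z` is the twisted topological zeta function `Z^(e)` of `f` (`IsTwistedTop E ε f e Z`), for
  a realisation `E` of the Grothendieck ring with values in a domain `R` and `ε : R → ℂ` with `ε (E 𝕃) = 1`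
  and `E 𝕃 ≠ 1` (for instance the Euler characteristic, from the Hodge-Deligne polynomials), then every
  pole of `Z` is one of the `a / b`, `(a, b) ∈ S`. -/
theorem result {n : ℕ} (f : MvPolynomial (Fin (n + 1)) ℂ) (hf0 : f ≠ 0) (d : ℕ) (hd : 3 ≤ d)
    (hf : f.IsHomogeneous d)
    (H : ∀ (i : Fin (n + 1)) (q : Fin n → ℂ), (∀ j, eval (i.insertNth 1 q) (pderiv j f) = 0) →
      ∃ (g : MvPolynomial (Fin n) ℂ) (w : Fin n → ℕ) (N : ℕ)
        (η : Fin n → MvPowerSeries (Fin n) ℂ), WHG (germAt i q f) g w N η) :
    ∃ S : Finset (ℤ × ℤ), (∀ q ∈ S, q.1 < 0 ∧ 0 < q.2 ∧
      ∀ b : Polynomial ℂ, IsBFunction f b → b.eval ((q.1 : ℂ) / q.2) = 0) ∧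
    (∀ k : ℕ, zetaC f k ∈ ratRing ℂ (S : Set (ℤ × ℤ))) ∧
    ∀ (e : ℕ), 1 ≤ e → ∀ {R : Type} [CommRing R] [IsDomain R] (E : MK ℂ →+* R) (ε : R →+* ℂ),
      ε (E ((Lu ℂ : (MK ℂ)ˣ) : MK ℂ)) = 1 → E ((Lu ℂ : (MK ℂ)ˣ) : MK ℂ) ≠ 1 →
      ∀ Z : RatFunc ℂ, IsTwistedTop E ε f e Z → ∀ s₀ : ℂ, Z.denom.eval s₀ = 0 →
        ∃ q ∈ S, s₀ = (q.1 : ℂ) / q.2 := by
  obtain ⟨S, hS, -, -, h1⟩ := Pool.Agent.H940.Q.rows_all hd hf hf0 H
  exact ⟨S, fun q hq => ⟨(hS q hq).1, (hS q hq).2.1, (hS q hq).2.2.1⟩, h1,
    fun e he R _ _ E ε hε hE Z hZ s₀ hs => Pool.Agent.H940.Q.twisted_poles E ε hε hE f S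
      (fun q hq => ⟨(hS q hq).1, (hS q hq).2.1⟩) h1 e he Z hZ s₀ hs⟩

end Pool.Agent.Results.MP_b22d1f_ag.FormsLocallyWHTwisted
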